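import Pool.Agent.H65.CF.T7

set_option autoImplicit false

open MeasureTheory Set Filter NumberField
open scoped Real nonZeroDivisors

namespace Pool.Agent.H40.CFH

open Pool.Agent.H31.CN Pool.Agent.H65.AD Pool.Agent.H65.CF

/-- smallness of the sums over the smooth numbers -/
theorem small_sum (hCHM : T_CHM) (hSMN : T_SMN) (R : ℕ) (hR : 2 ≤ R) (M δ : ℝ) (hM : 0 < M)
    (hδ : 0 < δ) :
    ∃ X₁ : ℝ, ∀ X : ℝ, X₁ ≤ X → ∀ (T : ℝ) (g : ℝ → ℝ), Real.sqrt X ≤ T → 0 < T →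
      (∀ u, 0 < u → |g u| ≤ M) → (∀ u, 0 < u → |g u| ≤ M * u) → ∀ D : ℕ,
      |∑ a ∈ smo R ⌊X ^ (5 / 8 : ℝ)⌋₊, chm a D / a * g ((a : ℝ) / T)| ≤ δ ∧
      |∑ a ∈ smo R ⌊X ^ (5 / 8 : ℝ)⌋₊, chm a D / a - LR R D| ≤ δ := by
  obtain ⟨C, hC, hSMN⟩ := hSMN
  obtain ⟨-, h2⟩ := hSMN R hR
  have hε : 0 < min (δ / (2 * M)) δ := lt_min (by positivity) hδ
  obtain ⟨Z₀, hZ₀⟩ := h2 _ hε
  refine ⟨max 1 ((Z₀ + 2 * M * Z₀ / δ) ^ 2), ?_⟩
  intro X hX T g hT hT0 hg1 hg2 D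
  have hX1 : 1 ≤ X := (le_max_left _ _).trans hX
  have hX2 : (Z₀ + 2 * M * Z₀ / δ) ^ 2 ≤ X := (le_max_right _ _).trans hX
  have hs : (Z₀ : ℝ) + 2 * M * Z₀ / δ ≤ Real.sqrt X := Real.le_sqrt_of_sq_le hX2
  have hp1 : 0 ≤ 2 * M * Z₀ / δ := by positivity
  have hU : Z₀ ≤ ⌊X ^ (5 / 8 : ℝ)⌋₊ := by
    apply Nat.le_floor
    calc (Z₀ : ℝ) ≤ Real.sqrt X := by linarith
      _ = X ^ (1 / 2 : ℝ) := Real.sqrt_eq_rpow X
      _ ≤ X ^ (5 / 8 : ℝ) := Real.rpow_le_rpow_of_exponent_le hX1 (by norm_num)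
  obtain ⟨h3, h4⟩ := hZ₀ _ hU
  refine ⟨?_, (h4 D).trans (min_le_right _ _)⟩
  set U := ⌊X ^ (5 / 8 : ℝ)⌋₊ with hUdef
  have hapos : ∀ a ∈ smo R U, 1 ≤ a := fun a ha => (Finset.mem_Icc.1 (Finset.mem_filter.1 ha).1).1
  have hch : ∀ a, |chm a D| ≤ 1 := fun a => hCHM.2.1 a D
  rw [← Finset.sum_filter_add_sum_filter_not (smo R U) (fun a => Z₀ ≤ a)]
  have hA : |∑ a ∈ (smo R U).filter (fun a => Z₀ ≤ a), chm a D / a * g ((a : ℝ) / T)| ≤ δ / 2 := by
    refine (Finset.abs_sum_le_sum_abs _ _).trans ?_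
    have h5 : ∀ a ∈ (smo R U).filter (fun a => Z₀ ≤ a),
        |chm a D / a * g ((a : ℝ) / T)| ≤ M * ((1 : ℝ) / a) := by
      intro a ha
      have ha1 : (0 : ℝ) < a := by
        have := hapos a (Finset.mem_filter.1 ha).1
        exact_mod_cast this
      rw [abs_mul, abs_div, abs_of_pos ha1]
      have h6 := hg1 ((a : ℝ) / T) (by positivity)
      calc |chm a D| / a * |g ((a : ℝ) / T)| ≤ 1 / a * M := by
            gcongr
            exact hch a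
        _ = M * (1 / a) := by ring
    refine (Finset.sum_le_sum h5).trans ?_
    rw [← Finset.mul_sum]
    calc M * ∑ a ∈ (smo R U).filter (fun a => Z₀ ≤ a), (1 : ℝ) / a
        ≤ M * (δ / (2 * M)) := by gcongr; exact h3.trans (min_le_left _ _)
      _ = δ / 2 := by field_simp
  have hB : |∑ a ∈ (smo R U).filter (fun a => ¬ Z₀ ≤ a), chm a D / a * g ((a : ℝ) / T)| ≤
      δ / 2 := by
    refine (Finset.abs_sum_le_sum_abs _ _).trans ?_
    have h5 : ∀ a ∈ (smo R U).filter (fun a => ¬ Z₀ ≤ a),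
        |chm a D / a * g ((a : ℝ) / T)| ≤ M / T := by
      intro a ha
      have ha1 : (0 : ℝ) < a := by
        have := hapos a (Finset.mem_filter.1 ha).1
        exact_mod_cast this
      rw [abs_mul, abs_div, abs_of_pos ha1]
      have h6 := hg2 ((a : ℝ) / T) (by positivity)
      calc |chm a D| / a * |g ((a : ℝ) / T)| ≤ 1 / a * (M * ((a : ℝ) / T)) := by
            gcongr
            exact hch a
        _ = M / T := by field_simp
    refine (Finset.sum_le_sum h5).trans ?_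
    rw [Finset.sum_const, nsmul_eq_mul]
    have hcard : (((smo R U).filter (fun a => ¬ Z₀ ≤ a)).card : ℝ) ≤ Z₀ := by
      have h7 : (smo R U).filter (fun a => ¬ Z₀ ≤ a) ⊆ Finset.range Z₀ := by
        intro a ha
        rw [Finset.mem_range]
        exact not_le.1 (Finset.mem_filter.1 ha).2
      have := Finset.card_le_card h7
      rw [Finset.card_range] at this
      exact_mod_cast this
    have hT2 : 2 * M * Z₀ / δ ≤ T := by
      have : (0 : ℝ) ≤ Z₀ := Nat.cast_nonneg _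
      linarith
    calc (((smo R U).filter (fun a => ¬ Z₀ ≤ a)).card : ℝ) * (M / T) ≤ Z₀ * (M / T) := by
          gcongr
      _ ≤ δ / 2 := by
          rw [div_le_iff₀ hδ] at hT2
          rw [← mul_div_assoc, div_le_iff₀ hT0]
          linarith
  calc _ ≤ |∑ a ∈ (smo R U).filter (fun a => Z₀ ≤ a), chm a D / a * g ((a : ℝ) / T)| +
        |∑ a ∈ (smo R U).filter (fun a => ¬ Z₀ ≤ a), chm a D / a * g ((a : ℝ) / T)| :=
        abs_add_le _ _
    _ ≤ δ := by linarith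

theorem sq3 (p a b c d : ℝ) (h1 : (a - b) ^ 2 ≤ d) (h2 : (b - c) ^ 2 ≤ d) :
    (p - c) ^ 2 ≤ 3 * (p - a) ^ 2 + 6 * d := by
  nlinarith [sq_nonneg ((p - a) - (a - b)), sq_nonneg ((p - a) - (b - c)),
    sq_nonneg ((a - b) - (b - c))]

theorem sq2 (a b d : ℝ) (h : b ^ 2 ≤ d) : a ^ 2 ≤ 2 * (a - b) ^ 2 + 2 * d := by
  nlinarith [sq_nonneg ((a - b) - b)]

theorem sqf (a b e f : ℝ) (h1 : a ^ 2 ≤ e / 2) (h2 : b ^ 2 ≤ f) :
    (a + b) ^ 2 ≤ e + 2 * f := by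
  nlinarith [sq_nonneg (a - b)]

theorem aux_y (y : ℝ) (hy2 : 2 ≤ y) : y ^ 2 ≤ y ^ 16 / 2 := by
  have h7 : y ^ 16 = y ^ 2 * y ^ 14 := by ring
  have h8 : 2 ≤ y ^ 14 := by
    calc (2 : ℝ) ≤ y := hy2
      _ ≤ y ^ 14 := le_self_pow₀ (by linarith) (by norm_num)
  rw [h7]
  nlinarith [sq_nonneg y]

theorem aux_log {X y D : ℝ} (hy0 : 0 < y) (hy16 : y ^ 16 = X) (hD0 : 0 < D) (h3 : D ≤ X) :
    Real.log D ≤ 32 * Real.sqrt y := by
  have h8 : Real.log D ≤ Real.log X := Real.log_le_log hD0 h3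
  have h9 : Real.log X = 16 * Real.log y := by
    rw [← hy16, Real.log_pow]
    norm_num
  have h10 := Real.log_le_rpow_div hy0.le (show (0 : ℝ) < 1 / 2 by norm_num)
  rw [← Real.sqrt_eq_rpow] at h10
  rw [h9] at h8
  linarith

theorem aux_E {CH δ y l : ℝ} (hδ : 0 < δ) (hy0 : 0 < y) (hyC : 2048 * CH ^ 2 / δ ^ 2 ≤ y)
    (hl0 : 0 ≤ l) (hl : l ≤ 32 * Real.sqrt y) : (CH * l / y) ^ 2 ≤ δ ^ 2 / 2 := by
  have h9 : l ^ 2 ≤ 1024 * y := by
    calc l ^ 2 ≤ (32 * Real.sqrt y) ^ 2 := by gcongr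
      _ = 1024 * y := by rw [mul_pow, Real.sq_sqrt hy0.le]; norm_num
  rw [div_le_iff₀ (by positivity)] at hyC
  rw [div_pow, mul_pow, div_le_div_iff₀ (by positivity) (by norm_num)]
  have h10 : CH ^ 2 * l ^ 2 ≤ CH ^ 2 * (1024 * y) := by gcongr
  nlinarith

theorem mem_fd {Y : ℝ} {D : ℕ} (h : D ∈ fd Y) : 5 ≤ D ∧ D ≤ ⌊Y⌋₊ ∧ Fd D := by
  classical
  unfold fd at h
  rw [Finset.mem_filter, Finset.mem_Icc] at h
  exact ⟨h.1.1, h.1.2, h.2⟩

theorem fd_sub (Y : ℝ) : fd Y ⊆ Finset.Icc 1 ⌊Y⌋₊ := by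
  intro D h
  obtain ⟨h1, h2, -⟩ := mem_fd h
  rw [Finset.mem_Icc]
  exact ⟨by omega, h2⟩

theorem pf_HLK (hHSY : T_HSY) (hSVR : T_SVR) (hGQB : T_GQB) (hSMN : T_SMN) (hDTS : T_DTS)
    (hSMR : T_SMR) (hCHM : T_CHM) : T_HLK := by
  obtain ⟨CH, hCH, hH⟩ := hHSY
  obtain ⟨CS, hCS, hS⟩ := hSVR
  obtain ⟨hgc, hgd, CG, hCG, hG⟩ := hGQB
  refine ⟨28 * (CS * CG ^ 2) + 27, by positivity, ?_⟩
  intro R hR
  have hR1 : (1 : ℝ) < R := by exact_mod_cast (lt_of_lt_of_le one_lt_two hR)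
  have hR0 : (0 : ℝ) < R := by linarith
  have hlR : 0 < Real.log R := Real.log_pos hR1
  set δ : ℝ := Real.log R / Real.sqrt R with hδdef
  have hsR : 0 < Real.sqrt R := Real.sqrt_pos.2 hR0
  have hδ : 0 < δ := div_pos hlR hsR
  have hδ2 : δ ^ 2 = Real.log R ^ 2 / R := by
    rw [hδdef, div_pow, Real.sq_sqrt hR0.le]
  obtain ⟨X₁, hX₁⟩ := small_sum hCHM hSMN R hR (CG + 1) δ (by linarith) hδ
  set w : ℝ := max (max 2 R) (2048 * CH ^ 2 / δ ^ 2) with hw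
  refine ⟨max X₁ (w ^ 16), ?_⟩
  intro X hX K _ _ hK
  have hXX₁ : X₁ ≤ X := (le_max_left _ _).trans hX
  have hw2 : 2 ≤ w := (le_max_left _ _).trans (le_max_left _ _)
  have hwR : (R : ℝ) ≤ w := (le_max_right _ _).trans (le_max_left _ _)
  have hwC : 2048 * CH ^ 2 / δ ^ 2 ≤ w := le_max_right _ _
  have hXw : w ^ 16 ≤ X := (le_max_right _ _).trans hX
  have hX0 : 0 < X := lt_of_lt_of_le (by positivity) hXw
  set y : ℝ := X ^ (1 / 16 : ℝ) with hy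
  have hy0 : 0 < y := Real.rpow_pos_of_pos hX0 _
  have hyX : ∀ n : ℕ, y ^ n = X ^ ((n : ℝ) / 16) := by
    intro n
    rw [hy, ← Real.rpow_natCast, ← Real.rpow_mul hX0.le]
    congr 1
    ring
  have hy16 : y ^ 16 = X := by
    rw [hyX 16]
    norm_num
  have hwy : w ≤ y := by
    by_contra h
    push Not at h
    have : y ^ 16 < w ^ 16 := pow_lt_pow_left₀ h hy0.le (by norm_num)
    rw [hy16] at this
    linarith
  have hy2 : 2 ≤ y := hw2.trans hwy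
  have hyR : (R : ℝ) ≤ y := hwR.trans hwy
  have hyC : 2048 * CH ^ 2 / δ ^ 2 ≤ y := hwC.trans hwy
  have hX1 : 1 ≤ X := by
    rw [← hy16]
    exact one_le_pow₀ (by linarith)
  have hsX : Real.sqrt X = y ^ 8 := by
    rw [Real.sqrt_eq_iff_mul_self_eq hX0.le (by positivity), ← pow_add, hy16]
  set L : ℝ := Real.log R ^ 2 / R * X with hL
  have hL0 : 0 < L := by positivity
  set s : Finset ℕ := (fd X).filter (fun D : ℕ => X / 2 < D) with hs
  have hsD : ∀ D ∈ s, D ∈ fd X ∧ X / 2 < D ∧ (D : ℝ) ≤ X ∧ 5 ≤ D ∧ Fd D := by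
    intro D hD
    obtain ⟨h1, h2⟩ := Finset.mem_filter.1 hD
    obtain ⟨h3, h4, h5⟩ := mem_fd h1
    exact ⟨h1, h2, (Nat.cast_le.2 h4).trans (Nat.floor_le hX0.le), h3, h5⟩
  have hsub : s ⊆ Finset.Icc 1 ⌊X⌋₊ := (Finset.filter_subset _ _).trans (fd_sub X)
  have hcard : (s.card : ℝ) ≤ X := by
    have h1 := Finset.card_le_card hsub
    rw [Nat.card_Icc, Nat.add_sub_cancel] at h1
    exact (Nat.cast_le.2 h1).trans (Nat.floor_le hX0.le)
  have hδL : (s.card : ℝ) * δ ^ 2 ≤ L := by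
    rw [hδ2, hL, mul_comm]
    gcongr
  -- the length of the sums
  have hT : ∀ u ∈ Icc (X / 2) X, Real.sqrt X ≤ y * Real.sqrt u ∧ 1 ≤ y * Real.sqrt u ∧
      y * Real.sqrt u ≤ X ^ (9 / 16 : ℝ) ∧ 0 < u := by
    intro u hu
    have hu0 : 0 < u := lt_of_lt_of_le (by positivity) hu.1
    have h1 : Real.sqrt X ≤ y * Real.sqrt u := by
      rw [Real.sqrt_le_left (by positivity), mul_pow, Real.sq_sqrt hu0.le]
      have : (4 : ℝ) ≤ y ^ 2 := by nlinarith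
      nlinarith [hu.1]
    refine ⟨h1, ?_, ?_, hu0⟩
    · refine le_trans ?_ h1
      rw [hsX]
      exact one_le_pow₀ (by linarith)
    · have h2 : Real.sqrt u ≤ Real.sqrt X := Real.sqrt_le_sqrt hu.2
      have h3 : X ^ (9 / 16 : ℝ) = y * Real.sqrt X := by
        rw [hsX]
        have := hyX 9
        norm_num at this
        rw [← this]
        ring
      rw [h3]
      gcongr
  -- the variance bound
  have hvar : ∀ (G : ℝ → ℝ) (T : ℝ), (∀ u : ℝ, 0 < u → |G u| ≤ CG * Real.exp (-u)) → 1 ≤ T →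
      T ≤ X ^ (9 / 16 : ℝ) → ∑ D ∈ s, (SG G D T -
        ∑ a ∈ smo R ⌊X ^ (5 / 8 : ℝ)⌋₊, chm a D / a * G ((a : ℝ) / T)) ^ 2 ≤
        2 * (CS * CG ^ 2) * L := by
    intro G T hGb hT1 hT2
    have h1 := hS R G CG T X hR hCG.le hGb hX1 hT1 hT2
    have h2 : X ^ (15 / 16 : ℝ) ≤ X / R := by
      have h3 := hyX 15
      norm_num at h3
      rw [← h3, le_div_iff₀ hR0]
      calc y ^ 15 * R ≤ y ^ 15 * y := by gcongr
        _ = X := by rw [← hy16]; ring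
    refine (Finset.sum_le_sum_of_subset_of_nonneg hsub fun _ _ _ => sq_nonneg _).trans
      (h1.trans ?_)
    calc CS * CG ^ 2 * Real.log R ^ 2 * (X / R + X ^ (15 / 16 : ℝ))
        ≤ CS * CG ^ 2 * Real.log R ^ 2 * (X / R + X / R) := by gcongr
      _ = 2 * (CS * CG ^ 2) * L := by rw [hL]; ring
  -- the kernels
  have hg0 : ∀ u, 0 < u → |gq u - 1| ≤ CG + 1 := by
    intro u hu
    have h1 : Real.exp (-u) ≤ 1 := by
      rw [Real.exp_le_one_iff]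
      linarith
    have h2 := (hG u hu).1
    calc |gq u - 1| ≤ |gq u| + |(1 : ℝ)| := abs_sub _ _
      _ ≤ CG * 1 + 1 := by
        rw [abs_one]
        have : CG * Real.exp (-u) ≤ CG * 1 := by gcongr
        linarith
      _ = CG + 1 := by ring
  have hg1 : ∀ u, 0 < u → |gq u - 1| ≤ (CG + 1) * u := by
    intro u hu
    have h2 := (hG u hu).2.2.1
    nlinarith
  have hg2 : ∀ u, 0 < u → |gq1 u| ≤ CG + 1 := by
    intro u hu
    have h1 : Real.exp (-u) ≤ 1 := by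
      rw [Real.exp_le_one_iff]
      linarith
    have h2 := (hG u hu).2.1
    have : CG * Real.exp (-u) ≤ CG * 1 := by gcongr
    linarith
  have hg3 : ∀ u, 0 < u → |gq1 u| ≤ (CG + 1) * u := by
    intro u hu
    have h2 := (hG u hu).2.2.2
    nlinarith
  -- the sum at `X`
  have hPX : ∑ D ∈ s, (SG gq D (y * Real.sqrt X) - LR R D) ^ 2 ≤ (6 * (CS * CG ^ 2) + 6) * L := by
    obtain ⟨h1, h2, h3, -⟩ := hT X ⟨by linarith, le_rfl⟩
    have h4 := hvar gq (y * Real.sqrt X) (fun u hu => (hG u hu).1) h2 h3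
    have h5 : ∀ D ∈ s, (SG gq D (y * Real.sqrt X) - LR R D) ^ 2 ≤
        3 * (SG gq D (y * Real.sqrt X) - ∑ a ∈ smo R ⌊X ^ (5 / 8 : ℝ)⌋₊,
          chm a D / a * gq ((a : ℝ) / (y * Real.sqrt X))) ^ 2 + 6 * δ ^ 2 := by
      intro D _
      obtain ⟨h6, h7⟩ := hX₁ X hXX₁ (y * Real.sqrt X) (fun u => gq u - 1) h1
        (by linarith) hg0 hg1 D
      set A0 := ∑ a ∈ smo R ⌊X ^ (5 / 8 : ℝ)⌋₊,
          chm a D / a * gq ((a : ℝ) / (y * Real.sqrt X)) with hA0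
      set A1 := ∑ a ∈ smo R ⌊X ^ (5 / 8 : ℝ)⌋₊, chm a D / (a : ℝ) with hA1
      have h8 : ∑ a ∈ smo R ⌊X ^ (5 / 8 : ℝ)⌋₊,
          chm a D / a * (gq ((a : ℝ) / (y * Real.sqrt X)) - 1) = A0 - A1 := by
        rw [hA0, hA1, ← Finset.sum_sub_distrib]
        refine Finset.sum_congr rfl fun a _ => ?_
        ring
      rw [h8] at h6
      have h9 : (A0 - A1) ^ 2 ≤ δ ^ 2 := sq_le_sq' (abs_le.1 h6).1 (abs_le.1 h6).2
      have h10 : (A1 - LR R D) ^ 2 ≤ δ ^ 2 := sq_le_sq' (abs_le.1 h7).1 (abs_le.1 h7).2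
      exact sq3 _ _ _ _ _ h9 h10
    refine (Finset.sum_le_sum h5).trans ?_
    rw [Finset.sum_add_distrib, ← Finset.mul_sum, Finset.sum_const, nsmul_eq_mul]
    linarith
  -- the derivative
  have hPd : ∀ u ∈ Icc (X / 2) X, ∑ D ∈ s,
      (-(1 / (2 * u)) * SG gq1 D (y * Real.sqrt u)) ^ 2 ≤
        (4 * (CS * CG ^ 2) + 2) * L / X ^ 2 := by
    intro u hu
    obtain ⟨h1, h2, h3, hu0⟩ := hT u hu
    have h4 := hvar gq1 (y * Real.sqrt u) (fun v hv => (hG v hv).2.1) h2 h3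
    have h5 : ∀ D ∈ s, (-(1 / (2 * u)) * SG gq1 D (y * Real.sqrt u)) ^ 2 ≤
        (1 / X ^ 2) * (2 * (SG gq1 D (y * Real.sqrt u) - ∑ a ∈ smo R ⌊X ^ (5 / 8 : ℝ)⌋₊,
          chm a D / a * gq1 ((a : ℝ) / (y * Real.sqrt u))) ^ 2 + 2 * δ ^ 2) := by
      intro D _
      obtain ⟨h6, -⟩ := hX₁ X hXX₁ (y * Real.sqrt u) gq1 h1 (by linarith) hg2 hg3 D
      set A0 := ∑ a ∈ smo R ⌊X ^ (5 / 8 : ℝ)⌋₊,
          chm a D / a * gq1 ((a : ℝ) / (y * Real.sqrt u)) with hA0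
      have h9 : A0 ^ 2 ≤ δ ^ 2 := sq_le_sq' (abs_le.1 h6).1 (abs_le.1 h6).2
      have h10 : SG gq1 D (y * Real.sqrt u) ^ 2 ≤
          2 * (SG gq1 D (y * Real.sqrt u) - A0) ^ 2 + 2 * δ ^ 2 := sq2 _ _ _ h9
      have h11 : (-(1 / (2 * u))) ^ 2 ≤ 1 / X ^ 2 := by
        rw [neg_sq, div_pow, one_pow]
        have : X ≤ 2 * u := by linarith [hu.1]
        gcongr
      rw [mul_pow]
      gcongr
    refine (Finset.sum_le_sum h5).trans ?_
    rw [← Finset.mul_sum, Finset.sum_add_distrib, ← Finset.mul_sum, Finset.sum_const,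
      nsmul_eq_mul]
    have h12 : 2 * ∑ D ∈ s, (SG gq1 D (y * Real.sqrt u) - ∑ a ∈ smo R ⌊X ^ (5 / 8 : ℝ)⌋₊,
          chm a D / a * gq1 ((a : ℝ) / (y * Real.sqrt u))) ^ 2 + (s.card : ℝ) * (2 * δ ^ 2) ≤
        (4 * (CS * CG ^ 2) + 2) * L := by linarith
    calc _ ≤ 1 / X ^ 2 * ((4 * (CS * CG ^ 2) + 2) * L) := by gcongr
      _ = _ := by ring
  -- removal of the smooth dependence
  have hmain := hSMR s (X / 2) X ((4 * (CS * CG ^ 2) + 2) * L / X ^ 2)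
    (fun u D => SG gq D (y * Real.sqrt u) - LR R D)
    (fun u D => -(1 / (2 * u)) * SG gq1 D (y * Real.sqrt u)) (by linarith) (by linarith)
    (by positivity) (fun D hD => ⟨(hsD D hD).2.1.le, (hsD D hD).2.2.1⟩)
    (fun D _ u hu => ((hDTS D y u hy0 (hT u hu).2.2.2).1).sub_const _)
    (fun D _ => by
      intro u hu
      have hu0 : 0 < u := (hT u hu).2.2.2
      have h1 := (hDTS D y u hy0 hu0).2
      refine ContinuousAt.continuousWithinAt (ContinuousAt.mul ?_ h1)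
      refine (ContinuousAt.div continuousAt_const (by fun_prop) (by positivity)).neg) hPd
  have hPhi : ∑ D ∈ s, (SG gq D (y * Real.sqrt D) - LR R D) ^ 2 ≤
      (14 * (CS * CG ^ 2) + 13) * L := by
    refine hmain.trans ?_
    have h1 : 2 * (X - X / 2) ^ 2 * ((4 * (CS * CG ^ 2) + 2) * L / X ^ 2) =
        (2 * (CS * CG ^ 2) + 1) * L := by
      field_simp
      ring
    rw [h1]
    linarith
  -- the approximate formula for the class number
  have hfin : ∀ D ∈ s, ((classNumber (K D) : ℝ) / Real.sqrt D - LR R D / π) ^ 2 ≤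
      δ ^ 2 + 2 * (SG gq D (y * Real.sqrt D) - LR R D) ^ 2 := by
    intro D hD
    obtain ⟨h1, h2, h3, h4, h5⟩ := hsD D hD
    obtain ⟨hk1, hk2⟩ := hK D h1
    have hD0 : (0 : ℝ) < D := by
      have : 0 < D := by omega
      exact_mod_cast this
    have hyD : y ≤ Real.sqrt D := by
      refine Real.le_sqrt_of_sq_le ?_
      have h6 := aux_y y hy2
      rw [hy16] at h6
      exact h6.trans h2.le
    obtain ⟨h6, -⟩ := hH D (K D) (by omega) h5 hk1 hk2 y hy2 hyD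
    set a := (classNumber (K D) : ℝ) / Real.sqrt D - SG gq D (y * Real.sqrt D) / π with ha
    set b := SG gq D (y * Real.sqrt D) - LR R D with hb
    have e1 : (classNumber (K D) : ℝ) / Real.sqrt D - LR R D / π = a + b / π := by
      rw [ha, hb]
      ring
    have h7 : a ^ 2 ≤ (CH * Real.log D / y) ^ 2 := sq_le_sq' (by linarith [(abs_le.1 h6).1])
      (abs_le.1 h6).2
    have hlog : Real.log D ≤ 32 * Real.sqrt y := aux_log hy0 hy16 hD0 h3
    have hlog0 : 0 ≤ Real.log D := Real.log_nonneg (by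
      have : 1 ≤ D := by omega
      exact_mod_cast this)
    have h8 : (CH * Real.log D / y) ^ 2 ≤ δ ^ 2 / 2 := aux_E hδ hy0 hyC hlog0 hlog
    have hpi : 1 ≤ π := by linarith [Real.pi_gt_three]
    have h9 : (b / π) ^ 2 ≤ b ^ 2 := by
      rw [div_pow]
      exact div_le_self (sq_nonneg b) (one_le_pow₀ hpi)
    rw [e1]
    exact sqf _ _ _ _ (h7.trans h8) h9
  refine (Finset.sum_le_sum hfin).trans ?_
  rw [Finset.sum_add_distrib, Finset.sum_const, nsmul_eq_mul, ← Finset.mul_sum]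
  have : (28 * (CS * CG ^ 2) + 27) * Real.log R ^ 2 / R * X = (28 * (CS * CG ^ 2) + 27) * L := by
    rw [hL]
    ring
  rw [this]
  linarith

end Pool.Agent.H40.CFH
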