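import Pool.Agent.H65.CF.T7

set_option autoImplicit false

open MeasureTheory Set Filter NumberField
open scoped Real nonZeroDivisors

namespace Pool.Agent.H40.CFH

open Pool.Agent.H31.CN Pool.Agent.H65.AD Pool.Agent.H65.CF

theorem pf_THC (hRPN : T_RPN) (hTHE : T_THE) (hQDV : T_QDV) (hTDS : T_TDS) (hCHM : T_CHM) :
    T_THC := by
  intro D K _ _ hD4 hFd hrk hdisc y hy
  obtain ⟨Q, hQ, hsum⟩ := hRPN D K hD4 hFd hrk hdisc
  have hD : (0 : ℝ) < D := by
    have : 0 < D := by omega
    exact_mod_cast this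
  have hs : 0 < Real.sqrt D := Real.sqrt_pos.2 hD
  -- the sum over the classes
  have key : ∀ t : ℝ, 0 < t →
      ∑ c, Th (Q c).1 (Q c).2.1 D t = (classNumber K : ℝ) + 2 * ∑' n : ℕ, aD (n + 1) D *
        Real.exp (-(2 * π * t * (((n : ℝ) + 1) / Real.sqrt D))) := by
    intro t ht
    set w : ℕ → ℝ := fun n => Real.exp (-(2 * π * t * ((n : ℝ) / Real.sqrt D))) with hw
    have hw0 : ∀ n, 0 ≤ w n := fun n => (Real.exp_pos _).le
    have hws : Summable fun n : ℕ => ((n : ℝ) + 1) * w n := by
      have hr : 0 < 2 * π * t / Real.sqrt D := by positivity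
      have h1 := Real.summable_pow_mul_exp_neg_nat_mul 1 hr
      have h2 := Real.summable_pow_mul_exp_neg_nat_mul 0 hr
      refine (h1.add h2).congr fun n => ?_
      simp only [hw, pow_one, pow_zero, one_mul]
      rw [← add_one_mul]
      congr 2
      ring
    obtain ⟨h1, h2⟩ := hsum w hw0 hws
    have h3 : ∀ c, Th (Q c).1 (Q c).2.1 D t = 1 + ∑' v : ℤ × ℤ,
        (if v = 0 then 0 else w (val (Q c) v).toNat) := by
      intro c
      obtain ⟨hpos, hdsc⟩ := hQ c
      have hA : (0 : ℝ) < (Q c).1 := by exact_mod_cast hpos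
      have hqd : ∀ v, qd (Q c).1 (Q c).2.1 D v = val (Q c) v := by
        intro v
        have := hQDV.2.1 (Q c) v hpos
        rw [hdsc] at this
        exact_mod_cast this
      have hTs := (hTHE (Q c).1 (Q c).2.1 D t hA hD ht).1
      unfold Th
      rw [hTs.tsum_eq_add_tsum_ite 0]
      congr 1
      · rw [hqd]
        have : val (Q c) 0 = 0 := by
          simp [val]
        rw [this]
        simp
      · refine tsum_congr fun v => ?_
        by_cases hv : v = 0
        · rw [if_pos hv, if_pos hv]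
        · rw [if_neg hv, if_neg hv]
          have hvp : 0 < qd (Q c).1 (Q c).2.1 D v := (hQDV.1 _ _ _ v hA hD).2 hv
          rw [hqd] at hvp ⊢
          have hvp' : 0 < val (Q c) v := by exact_mod_cast hvp
          simp only [hw]
          have : (((val (Q c) v).toNat : ℕ) : ℝ) = ((val (Q c) v : ℤ) : ℝ) := by
            have h4 := Int.toNat_of_nonneg hvp'.le
            exact_mod_cast congrArg (fun z : ℤ => (z : ℝ)) h4
          rw [this]
    rw [Finset.sum_congr rfl fun c _ => h3 c, Finset.sum_add_distrib, h2]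
    congr 1
    · simp [classNumber]
    · congr 1
      refine tsum_congr fun n => ?_
      simp only [hw]
      push_cast
      rfl
  have h5 : ∑ c, Th (Q c).1 (Q c).2.1 D y⁻¹ = y * ∑ c, Th (Q c).1 (Q c).2.1 D y := by
    rw [Finset.mul_sum]
    refine Finset.sum_congr rfl fun c _ => ?_
    obtain ⟨hpos, -⟩ := hQ c
    have hA : (0 : ℝ) < (Q c).1 := by exact_mod_cast hpos
    exact (hTHE (Q c).1 (Q c).2.1 D y hA hD hy).2
  rw [key y⁻¹ (inv_pos.2 hy), key y hy] at h5
  have e1 : ∀ n : ℕ, -(2 * π * ((n : ℝ) + 1) / (y * Real.sqrt D)) =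
      -(2 * π * y⁻¹ * (((n : ℝ) + 1) / Real.sqrt D)) := by
    intro n
    field_simp
  have e2 : ∀ n : ℕ, -(2 * π * ((n : ℝ) + 1) * y / Real.sqrt D) =
      -(2 * π * y * (((n : ℝ) + 1) / Real.sqrt D)) := by
    intro n
    ring
  simp only [e1, e2]
  exact h5

end Pool.Agent.H40.CFH
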